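import Pool.Agent.Q116.GP.Two
import Pool.Agent.Q116.GP.Lattice

set_option autoImplicit false

/-!
# Vertex cover number of generalized Petersen graphs (MP_86031e_co, Q1)

The Behsaz–Hatami–Mahmoodian conjecture: `β(P(n,k)) ≤ n + ⌈n/5⌉` for all `n ≥ 3`,
`1 ≤ k < n/2`.
-/

namespace Pool.Agent.Results.MP_86031e_co.BehsazHatamiMahmoodian

open Finset

/-- The generalized Petersen graph `P(n, k)` on the vertices `u_i = inl i`, `v_i = inr i`
(`i` modulo `n`), with the edges `u_i u_{i+1}`, `u_i v_i`, `v_i v_{i+k}`. -/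
def P (n k : ℕ) : SimpleGraph (ZMod n ⊕ ZMod n) :=
  SimpleGraph.fromRel fun a b =>
    match a, b with
    | Sum.inl i, Sum.inl j => j = i + 1
    | Sum.inl i, Sum.inr j => i = j
    | Sum.inr _, Sum.inl _ => False
    | Sum.inr i, Sum.inr j => j = i + (k : ZMod n)

/-- The vertex cover number: the minimum size of a set of vertices meeting every edge. -/
noncomputable def vertexCoverNumber {V : Type} (G : SimpleGraph V) : ℕ :=
  sInf {c | ∃ C : Finset V, (∀ x y, G.Adj x y → x ∈ C ∨ y ∈ C) ∧ C.card = c}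

/-- A multiplier with two long arcs exists for all small cases outside the exceptional ones. -/
def check : Bool :=
  (List.range 90).all fun n => (List.range 45).all fun k =>
    k == 0 || decide (n ≤ 2 * k) || k == 2 || 2 * k + 1 == n ||
      (List.range n).any fun m =>
        decide (4 * n / 5 ≤ min m (n - m) + min (k * m % n) (n - k * m % n))

theorem check_true : check = true := by decide +kernel

theorem small (n k : ℕ) (hn : n < 90) (hk1 : 1 ≤ k) (hk : 2 * k < n) (hk2 : k ≠ 2)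
    (hk3 : 2 * k + 1 ≠ n) : Q116.GP.HasIndep n k (4 * n / 5) := by
  have h := check_true
  unfold check at h
  rw [List.all_eq_true] at h
  have h1 := h n (List.mem_range.2 hn)
  rw [List.all_eq_true] at h1
  have h2 := h1 k (List.mem_range.2 (by omega))
  simp only [Bool.or_eq_true, beq_iff_eq, decide_eq_true_eq, List.any_eq_true,
    List.mem_range] at h2
  rcases h2 with (((h2 | h2) | h2) | h2) | ⟨m, hm, h2⟩
  · omega
  · omega
  · exact absurd h2 hk2
  · exact absurd h2 hk3
  · exact Q116.GP.of_mult n k m (by omega) hm h2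

theorem hasIndep (n k : ℕ) (hn : 3 ≤ n) (hk1 : 1 ≤ k) (hk : 2 * k < n) :
    Q116.GP.HasIndep n k (4 * n / 5) := by
  by_cases hk2 : k = 2
  · subst hk2
    exact Q116.GP.two n (by omega)
  by_cases hk3 : 2 * k + 1 = n
  · by_cases h5 : 5 ≤ n
    · exact Q116.GP.half n k _ hk3 (Q116.GP.two n h5)
    · -- `n = 3`, `k = 1`
      have hn3 : n = 3 := by omega
      have hk1' : k = 1 := by omega
      subst hn3 hk1'
      exact Q116.GP.of_mult 3 1 1 (by norm_num) (by norm_num) (by norm_num)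
  rcases Nat.lt_or_ge n 90 with hlt | hge
  · exact small n k hlt hk1 hk hk2 hk3
  rcases Nat.mod_two_eq_zero_or_one n with he | ho
  · obtain ⟨N, rfl⟩ : ∃ N, n = 2 * N := ⟨n / 2, by omega⟩
    rcases Nat.mod_two_eq_zero_or_one k with hke | hko
    · obtain ⟨a, b, h1, h2⟩ := Q116.GP.lattice_even N k (by omega) hke hk1 (by omega) hk2
      exact Q116.GP.of_even_vec N k hke a b h1 (by omega) (by omega)
    · exact Q116.GP.of_even_odd N k hko (by omega)
  · obtain ⟨a, b, h1, h2, h3, h4⟩ := Q116.GP.lattice_odd n k ho (by omega) hk1 hk hk2 hk3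
    exact Q116.GP.of_odd_vec n k ho a b h1 h2 h3 (by omega) (by omega)

/-- **Q1 of MP_86031e_co (Behsaz–Hatami–Mahmoodian conjecture).** For all `n ≥ 3` and
`1 ≤ k < n / 2`: `β(P(n,k)) ≤ n + ⌈n/5⌉` and `α(P(n,k)) ≥ ⌊4n/5⌋`. -/
theorem result : ∀ n k : ℕ, 3 ≤ n → 1 ≤ k → 2 * k < n →
    vertexCoverNumber (P n k) ≤ n + ⌈(n : ℚ) / 5⌉₊ ∧
      ⌊4 * (n : ℚ) / 5⌋₊ ≤ (P n k).indepNum := by
  classical
  intro n k hn hk1 hk
  haveI : NeZero n := ⟨by omega⟩
  obtain ⟨U, V, h1, h2, h3, h4⟩ := hasIndep n k hn hk1 hk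
  have hind := Q116.GP.indep_of n k U V h1 h2 h3
  have hP : Q116.GP.GP n k = P n k := rfl
  rw [hP] at hind
  have hcard : (U.disjSum V).card = U.card + V.card := Finset.card_disjSum U V
  have hfl : ⌊4 * (n : ℚ) / 5⌋₊ = 4 * n / 5 := by
    have : (4 * (n : ℚ) / 5) = ((4 * n : ℕ) : ℚ) / ((5 : ℕ) : ℚ) := by push_cast; ring
    rw [this, Nat.floor_div_eq_div]
  have hce : n + ⌈(n : ℚ) / 5⌉₊ = 2 * n - 4 * n / 5 := by
    have h5 : ⌈(n : ℚ) / 5⌉₊ = (n + 4) / 5 := by
      rw [Nat.ceil_eq_iff (by omega)]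
      have e1 : 5 * ((n + 4) / 5) ≤ n + 4 := Nat.mul_div_le _ _
      have e2 : n ≤ 5 * ((n + 4) / 5) := by omega
      have e3 : 1 ≤ (n + 4) / 5 := by omega
      constructor
      · rw [lt_div_iff₀ (by norm_num)]
        have : ((n + 4) / 5 - 1) * 5 < n := by omega
        exact_mod_cast this
      · rw [div_le_iff₀ (by norm_num)]
        have : n ≤ (n + 4) / 5 * 5 := by omega
        exact_mod_cast this
    rw [h5]
    omega
  constructor
  · rw [hce]
    have hcov : ∀ x y, (P n k).Adj x y → x ∈ (U.disjSum V)ᶜ ∨ y ∈ (U.disjSum V)ᶜ := by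
      intro x y hxy
      rw [Finset.mem_compl, Finset.mem_compl]
      by_contra hcon
      push Not at hcon
      exact hind (Finset.mem_coe.2 hcon.1) (Finset.mem_coe.2 hcon.2) hxy.ne hxy
    have hle : vertexCoverNumber (P n k) ≤ ((U.disjSum V)ᶜ).card := by
      unfold vertexCoverNumber
      exact Nat.sInf_le ⟨_, hcov, rfl⟩
    refine hle.trans ?_
    rw [Finset.card_compl, Fintype.card_sum, ZMod.card, hcard]
    omega
  · rw [hfl]
    exact (h4.trans hcard.ge).trans hind.card_le_indepNum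

end Pool.Agent.Results.MP_86031e_co.BehsazHatamiMahmoodian
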